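import Mathlib
import Pool.Agent.Lib.helper28.KahB
import Pool.Agent.Lib.helper28.RepC

namespace Pool.Agent.Results.MP_535799_an.NonSidon

open MeasureTheory AddCircle Finset
open scoped ComplexConjugate
open Pool.Agent.H28Kah

instance twoPi : Fact (0 < 2 * Real.pi) := ⟨Real.two_pi_pos⟩

/-- The circle `ℝ / 2πℤ`. -/
abbrev Circ := AddCircle (2 * Real.pi)

/-- `L¹` of the circle with normalised Lebesgue measure. -/
noncomputable abbrev LOne := Lp ℂ 1 (haarAddCircle : Measure Circ)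

/-- `h = f * g`. -/
def IsConv (f g h : LOne) : Prop :=
  (h : Circ → ℂ) =ᵐ[haarAddCircle] fun x => ∫ y, f y * g (x - y) ∂haarAddCircle

/-- Fourier coefficients. -/
noncomputable def coef (f : LOne) (n : ℤ) : ℂ := fourierCoeff (f : Circ → ℂ) n

/-- Closed subalgebras, for a product given by its graph `c f g h` (`h = f * g`). -/
def ClosedSubalgebra {E : Type} [NormedAddCommGroup E] [NormedSpace ℂ E] (c : E → E → E → Prop)
    (A : Submodule ℂ E) : Prop :=
  IsClosed (A : Set E) ∧ ∀ f ∈ A, ∀ g ∈ A, ∀ h, c f g h → h ∈ A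

/-- Property (P), for a product with graph `c` and coefficients `co`. -/
def GenP {E : Type} [NormedAddCommGroup E] [NormedSpace ℂ E] (c : E → E → E → Prop)
    (co : E → ℤ → ℂ) (Q : Set ℤ) : Prop :=
  ∀ A : Submodule ℂ E, ClosedSubalgebra c A → ∀ f ∈ A, (∀ n, n ∉ Q → co f n = 0) →
    f ∈ closure (Submodule.span ℂ {e | e ∈ A ∧ c e e e} : Set E)

/-- Property (P) in `L¹` of the circle. -/
def PropP (Q : Set ℤ) : Prop := GenP IsConv coef Q

/-- Sidon sets. -/
def IsSidon (Q : Set ℤ) : Prop :=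
  ∃ C : ℝ, ∀ (F : Finset ℤ) (a : ℤ → ℂ), ↑F ⊆ Q →
    ∑ n ∈ F, ‖a n‖ ≤ C * ⨆ x : ℝ, ‖∑ n ∈ F, a n * Complex.exp (Complex.I * n * x)‖

lemma ex_conv (f g : LOne) : ∃ h, IsConv f g h ∧ ∀ n, coL n h = coL n f * coL n g := by
  have i := int_conv (L1.integrable_coeFn f) (L1.integrable_coeFn g)
  refine ⟨i.toL1 _, i.coeFn_toL1, fun n => ?_⟩
  rw [coL_apply, fourierCoeff_congr_ae i.coeFn_toL1,
    co_conv (L1.integrable_coeFn f) (L1.integrable_coeFn g)]
  rfl

lemma propP : PropP Q := by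
  intro A hA f hf hQ
  refine closure_mono (Submodule.span_mono ?_) (mem_closure_idem hA.1 (fun f hf g hg => ?_) hf
    (summable_Q f hQ))
  · rintro e ⟨he, h⟩
    obtain ⟨u, hu, e2⟩ := ex_conv e e
    have : u = e := uniq fun n => by rw [e2, h]
    exact ⟨he, this ▸ hu⟩
  · obtain ⟨u, hu, e2⟩ := ex_conv f g
    exact ⟨u, hA.2 f hf g hg u hu, e2⟩

lemma q_inj : Function.Injective fun p : ℕ × ℕ => (5 : ℤ) ^ (2 * p.1) + 5 ^ (2 * p.2 + 1) := by
  rintro ⟨i, j⟩ ⟨k, l⟩ h
  have E : ∀ e, ({2 * i, 2 * j + 1} : Multiset ℕ).count e =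
      ({2 * k, 2 * l + 1} : Multiset ℕ).count e := fun e => digits e _ _ (by simp) (by simp) (by
    simp only [Multiset.insert_eq_cons, Multiset.map_cons, Multiset.sum_cons,
      Multiset.map_singleton, Multiset.sum_singleton]
    simp only at h
    zify; exact h)
  have a := E (2 * i)
  have b := E (2 * j + 1)
  simp only [Multiset.insert_eq_cons, Multiset.count_cons, Multiset.count_singleton] at a b
  refine Prod.ext ?_ ?_ <;> simp only <;> split_ifs at a b <;> omega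

lemma notSidon : ¬ IsSidon Q := by
  rintro ⟨C, hC⟩
  obtain ⟨m, hm⟩ := exists_nat_gt (max C 0)
  have m0 : (0 : ℝ) < m := lt_of_le_of_lt (le_max_right _ _) hm
  have m1 : C < m := lt_of_le_of_lt (le_max_left _ _) hm
  set N := m ^ 2 with hN
  have N0 : 0 < N := by have : 0 < m := by exact_mod_cast m0
                        positivity
  have hw := Complex.isPrimitiveRoot_exp N N0.ne'
  set w := Complex.exp (2 * Real.pi * Complex.I / N)
  have wn : ‖w‖ = 1 := hw.norm'_eq_one N0.ne'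
  set q := fun p : ℕ × ℕ => (5 : ℤ) ^ (2 * p.1) + 5 ^ (2 * p.2 + 1) with hq
  have h := hC ((range N ×ˢ range N).image q)
    (Function.extend q (fun p => (conj w ^ p.2) ^ p.1) 0) (by
      intro n hn
      obtain ⟨p, -, rfl⟩ := mem_image.mp hn
      exact ⟨_, _, rfl⟩)
  simp only [Finset.sum_image (q_inj.injOn), q_inj.extend_apply, hq] at h
  simp only [norm_pow, Complex.norm_conj, wn, one_pow, sum_const, card_product, card_range,
    nsmul_eq_mul, mul_one] at h
  have ne : ∀ (k : ℤ) (x : ℝ), ‖Complex.exp (Complex.I * k * x)‖ = 1 := fun k x => by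
    rw [mul_assoc, ← Complex.ofReal_intCast, ← Complex.ofReal_mul, Complex.norm_exp_I_mul_ofReal]
  have b : ∀ x : ℝ, ‖∑ p ∈ range N ×ˢ range N, (conj w ^ p.2) ^ p.1 * Complex.exp (Complex.I *
      (((5 : ℤ) ^ (2 * p.1) + 5 ^ (2 * p.2 + 1) : ℤ) : ℂ) * x)‖ ≤ (m : ℝ) ^ 3 := by
    intro x
    have p := H28Rep.parseval N0 hw le_rfl
      (fun j => Complex.exp (Complex.I * (((5 : ℤ) ^ (2 * j + 1) : ℤ) : ℂ) * x)) (fun j => ne _ x)
    rw [Finset.sum_product]
    refine (norm_sum_le _ _).trans ((abs_le_of_sq_le_sq' ?_ (by positivity)).2)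
    refine sq_sum_le_card_mul_sum_sq.trans (le_of_eq ?_)
    have e : ∀ i, ‖∑ j ∈ range N, (conj w ^ j) ^ i * Complex.exp (Complex.I *
        (((5 : ℤ) ^ (2 * i) + 5 ^ (2 * j + 1) : ℤ) : ℂ) * x)‖ = ‖∑ j ∈ range N,
        Complex.exp (Complex.I * (((5 : ℤ) ^ (2 * j + 1) : ℤ) : ℂ) * x) * (conj w ^ j) ^ i‖ := by
      intro i
      rw [← one_mul ‖∑ j ∈ range N, Complex.exp _ * _‖, ← ne ((5 : ℤ) ^ (2 * i)) x, ← norm_mul,
        Finset.mul_sum]
      congr 1
      refine Finset.sum_congr rfl fun j _ => ?_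
      rw [Int.cast_add, mul_add, add_mul, Complex.exp_add]; ring
    simp only [e]
    rw [p, card_range, hN]; push_cast; ring
  have s := Real.iSup_le b (by positivity)
  have s0 := Real.iSup_nonneg fun x : ℝ => norm_nonneg (∑ p ∈ range N ×ˢ range N,
    (conj w ^ p.2) ^ p.1 * Complex.exp (Complex.I *
      (((5 : ℤ) ^ (2 * p.1) + 5 ^ (2 * p.2 + 1) : ℤ) : ℂ) * x))
  have h2 := h.trans ((mul_le_mul_of_nonneg_right (le_max_left C 0) s0).trans
    (mul_le_mul_of_nonneg_left s (le_max_right C 0)))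
  have h3 := mul_lt_mul_of_pos_right hm (show (0 : ℝ) < m ^ 3 by positivity)
  rw [hN] at h2
  push_cast at h2
  nlinarith

theorem result : ∃ Q : Set ℤ, PropP Q ∧ ¬ IsSidon Q := ⟨Q, propP, notSidon⟩

end Pool.Agent.Results.MP_535799_an.NonSidon
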